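import Pool.Agent.Helper44.Idg.Cover

/-!
The closure argument with states that may contain cut edges, and with offsets.
-/

namespace Pool.Agent.Helper66.CL

open Pool.Agent.Helper44.Idg
open Pool.Agent.Helper60.Idg (B)

/-- size of an open piece -/
def qs : Q → ℕ
  | .e => 0
  | .cut => 0
  | .n l r => qs l + qs r + 1

/-- a tree without cut edges -/
def eq : B → Q
  | .e => .e
  | .n x y => .n (eq x) (eq y)

theorem qs_eq (b : B) : qs (eq b) = b.size := by
  induction b with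
  | e => rfl
  | n x y ihx ihy => simp only [eq, qs, ihx, ihy, Helper60.Idg.B.size]

/-- `Op T z q v`: the branch `z` can be cut further so that the piece of its root is `q`, and the
pieces cut off have total value `v`. -/
inductive Op (T : List (Q × Q × ℤ)) : Q → Q → ℤ → Prop
  | e : Op T .e .e 0
  | c : Op T .cut .cut 0
  | n {x y p q : Q} {v w : ℤ} : Op T x p v → Op T y q w → Op T (.n x y) (.n p q) (v + w)
  | cut {b q : Q} {v w : ℤ} : Op T b q v → Tab T q .cut w → Op T b .cut (v + w)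

theorem Op.opt {T : List (Q × Q × ℤ)} {z q : Q} {v : ℤ} (h : Op T z q v) :
    ∀ b : B, z = eq b → Opt T b q v := by
  induction h with
  | e =>
    intro b hb
    cases b with
    | e => exact Opt.e
    | n x y => cases hb
  | c =>
    intro b hb
    cases b with
    | e => cases hb
    | n x y => cases hb
  | n hx hy ihx ihy =>
    intro b hb
    cases b with
    | e => cases hb
    | n x y =>
      cases hb
      exact Opt.n (ihx x rfl) (ihy y rfl)
  | cut h ht ih =>
    intro b hb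
    exact Opt.cut (ih b hb) ht

/-- `Dm T b b' s`: every covering of a tree containing the branch `b'` gives a covering of the
tree with `b` instead of `b'` at additional cost `s`. -/
def Dm (T : List (Q × Q × ℤ)) (b b' : Q) (s : ℤ) : Prop :=
  ∀ q v, Op T b' q v → ∀ c w, Tab T q c w →
    ∃ q' v' w', Op T b q' v' ∧ Tab T q' c w' ∧ v' + w' ≤ v + w + s

theorem Dm.refl (T : List (Q × Q × ℤ)) (b : Q) : Dm T b b 0 := by
  intro q v h c w h'
  exact ⟨q, v, w, h, h', by linarith⟩

theorem Dm.trans {T : List (Q × Q × ℤ)} {b b' b'' : Q} {s s' : ℤ} (h : Dm T b b' s)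
    (h' : Dm T b' b'' s') : Dm T b b'' (s + s') := by
  intro q v h1 c w h2
  obtain ⟨q1, v1, w1, h3, h4, h5⟩ := h' q v h1 c w h2
  obtain ⟨q2, v2, w2, h6, h7, h8⟩ := h q1 v1 h3 c w1 h4
  exact ⟨q2, v2, w2, h6, h7, by linarith⟩

theorem Dm.mono {T : List (Q × Q × ℤ)} {b b' : Q} {s s' : ℤ} (h : Dm T b b' s) (hs : s ≤ s') :
    Dm T b b' s' := by
  intro q v h1 c w h2
  obtain ⟨q1, v1, w1, h3, h4, h5⟩ := h q v h1 c w h2
  exact ⟨q1, v1, w1, h3, h4, by linarith⟩

theorem Op.ex {T : List (Q × Q × ℤ)} {b b' : Q} {s : ℤ} (y : Q)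
    (hn : ∀ p r v w, Op T b' p v → Op T y r w → ∀ c m, Tab T (.n p r) c m →
      ∃ q' v' w', Op T (.n b y) q' v' ∧ Tab T q' c w' ∧ v' + w' ≤ v + w + m + s) :
    Dm T (.n b y) (.n b' y) s := by
  intro q v h
  generalize hB : Q.n b' y = b0 at h
  induction h with
  | e => cases hB
  | c => cases hB
  | @n x y' p r v w hx hy ihx ihy =>
    cases hB
    intro c m h1
    exact hn p r v w hx hy c m h1
  | @cut b1 q v w hb htab ih =>
    intro c m h1
    obtain ⟨q', v', w', h3, h4, h5⟩ := ih hB .cut w htab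
    exact ⟨.cut, v' + w', m, Op.cut h3 h4, h1, by linarith⟩

theorem Dm.left {T : List (Q × Q × ℤ)} {b b' : Q} {s : ℤ} (h : Dm T b b' s) (y : Q) :
    Dm T (.n b y) (.n b' y) s := by
  apply Op.ex
  intro p r v w hp hr c m h1
  obtain ⟨p', v', w', h3, h4, h5⟩ := h p v hp (.n r c) m (h1.teq (TEq.rho p r c).symm)
  exact ⟨.n p' r, v' + w, w', Op.n h3 hr, h4.teq (TEq.rho p' r c), by linarith⟩

theorem Op.swap {T : List (Q × Q × ℤ)} {x y q : Q} {v : ℤ} (h : Op T (.n x y) q v) :
    ∀ c w, Tab T q c w → ∃ q', Op T (.n y x) q' v ∧ Tab T q' c w := by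
  generalize hB : Q.n x y = b0 at h
  induction h with
  | e => cases hB
  | c => cases hB
  | @n x y' p r v w hx hy ihx ihy =>
    cases hB
    intro c m h1
    refine ⟨.n r p, ?_, h1.teq (TEq.sw r p c)⟩
    rw [add_comm]
    exact Op.n hy hx
  | @cut b1 q v w hb htab ih =>
    intro c m h1
    obtain ⟨q', h3, h4⟩ := ih hB .cut w htab
    exact ⟨.cut, Op.cut h3 h4, h1⟩

theorem Dm.sw (T : List (Q × Q × ℤ)) (x y : Q) : Dm T (.n x y) (.n y x) 0 := by
  intro q v h c w h'
  obtain ⟨q', h1, h2⟩ := h.swap c w h'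
  exact ⟨q', v, w, h1, h2, by linarith⟩

theorem Dm.n {T : List (Q × Q × ℤ)} {x x' y y' : Q} {s s' : ℤ} (hx : Dm T x x' s)
    (hy : Dm T y y' s') : Dm T (.n x y) (.n x' y') (s + s') := by
  have h1 := hx.left y
  have h2 := ((Dm.sw T x' y).trans (hy.left x')).trans (Dm.sw T y' x')
  have := h1.trans h2
  exact this.mono (by linarith)

/-- options of a cut edge -/
theorem Op.of_cut {T : List (Q × Q × ℤ)} (hT : ∀ x ∈ T, 0 ≤ x.2.2) {q : Q} {v : ℤ}
    (h : Op T .cut q v) : q = .cut ∧ 0 ≤ v := by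
  generalize hB : Q.cut = b0 at h
  induction h with
  | e => cases hB
  | c => exact ⟨rfl, le_rfl⟩
  | n => cases hB
  | @cut b1 q v w hb htab ih =>
    obtain ⟨-, h2⟩ := ih hB
    obtain ⟨x, hx, -, h3⟩ := htab
    have := hT x hx
    exact ⟨hB, by linarith⟩

/-- a branch that can be cut off -/
theorem Dm.of_cut {T : List (Q × Q × ℤ)} (hT : ∀ x ∈ T, 0 ≤ x.2.2) {b q : Q} {v w s : ℤ}
    (h : Op T b q v) (h' : Tab T q .cut w) (hs : v + w ≤ s) : Dm T b .cut s := by
  intro q0 v0 h0 c w0 h1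
  obtain ⟨rfl, h2⟩ := h0.of_cut hT
  exact ⟨.cut, v + w, w0, Op.cut h h', h1, by linarith⟩

/-- the closure argument -/
theorem closure {T : List (Q × Q × ℤ)} (S : Q → ℤ → Prop) (l : ℤ) (h0 : S .e 0)
    (hS : ∀ x i y j, S x i → S y j → ∃ z k, S z k ∧
      Dm T (.n x y) z (l * (qs x + qs y + 1 - qs z) + k - i - j)) :
    ∀ b : B, ∃ z k, S z k ∧ Dm T (eq b) z (l * (b.size - qs z) + k) := by
  intro b
  induction b with
  | e =>
    refine ⟨.e, 0, h0, ?_⟩
    simpa [eq, qs, Helper60.Idg.B.size] using Dm.refl T .e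
  | n x y ihx ihy =>
    obtain ⟨x', i, hx, dx⟩ := ihx
    obtain ⟨y', j, hy, dy⟩ := ihy
    obtain ⟨z, k, hz, dz⟩ := hS x' i y' j hx hy
    refine ⟨z, k, hz, ((dx.n dy).trans dz).mono ?_⟩
    have : ((B.n x y).size : ℤ) = x.size + y.size + 1 := by
      simp [Helper60.Idg.B.size]
    rw [this]
    apply le_of_eq
    ring

/-- the bound for all trees -/
theorem bound {u t l C : ℤ} {T : List (Q × Q × ℤ)} (hT : Sound u t T) (S : Q → ℤ → Prop)
    (h0 : S .e 0)
    (hS : ∀ x i y j, S x i → S y j → ∃ z k, S z k ∧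
      Dm T (.n x y) z (l * (qs x + qs y + 1 - qs z) + k - i - j))
    (hC : ∀ z k, S z k → ∃ q v w, Op T z q v ∧ Tab T q .e w ∧ v + w + k ≤ C + l * qs z) (b : B) :
    pg.P u t {(emb b, .e)} 0 (l * b.size + C) := by
  obtain ⟨z, k, hz, hd⟩ := closure S l h0 hS b
  obtain ⟨q, v, w, h1, h2, h3⟩ := hC z k hz
  obtain ⟨q', v', w', h4, h5, h6⟩ := hd q v h1 .e w h2
  have h7 : pg.P u t {(tm false q', mkf q'.isCut MB.e)} 0 w' := by
    have := hT.tab h5
    rw [mkf_e]
    exact this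
  have h8 := (h4.opt b rfl).sound hT false .e w' h7
  refine h8.mono le_rfl ?_
  have : l * ((b.size : ℤ) - qs z) = l * b.size - l * qs z := by ring
  linarith

end Pool.Agent.Helper66.CL
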